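import Mathlib
import Pool.Agent.Q18.P.Avg
import Pool.Agent.Q18.P.EC

/-!
# The 50/50 conjecture over `ℚ` and one-sided bounds for the product of all Birch-Swinnerton-Dyer products in a box

For `a, b ∈ ℚ` with `4a³ + 27b² ≠ 0` let `E = E_{a,b}`, and `S_X` the finite set of these pairs with heights `≤ X`, as in the
problem, `k = ℚ`.  Choose an integral model `y² = x³ + A x + B` of each curve (`A = u⁴ a`, `B = u⁶ b`) and a finite set `S_E`
of primes containing those dividing `6 (4A³ + 27B²)`; let `F_E` be the `L`-function without the factors at `S_E`, `w_E` the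
root number, `N(X) = |S_X|`, `m₋(X)` the number of `E ∈ S_X` with `w_E = -1`.  For each box we consider ONE product

  `P_X(y) = ∏_{E ∈ S_X} ∏_{p ∉ S_E, p ≤ y} #E(𝔽_p)/p`.

Its properties listed in `Curves` are theorems (modularity, the functional equation, Gross-Zagier and Kolyvagin).  Fix
`0 < δ < 1`; `U_X(κ)`: for some `B` there are arbitrarily large `Y` with
`∫_{Y^{1-δ}}^Y max (log P_X(y) - κ log log y, 0) dy/y ≤ B log Y` (one sequence of windows, as sparse as we like).

1. [The Riemann hypothesis for all `F_E`, and the average over `S_X` of `ord_{s=1} L(E, s) - (1 - w_E)/2` tends to `0`] ⟺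
   for each `η > 0` and all large `X`: `U_X(m₋(X) + η N(X))` ⟺ the same for all large `Y`.
2. Suppose this holds and the proportion of root numbers `-1` in `S_X` tends to `p`.  Then `Prob(rk E(ℚ) = 1) = p` and
   `Prob(rk E(ℚ) = 0) = 1 - p`, and the average of the analytic rank is `p`.  For `p = 1/2` these are the first two limits
   of the problem and the third one for the analytic rank.
3. For one box: `U_X(m₋(X) + a N(X))` implies the Riemann hypothesis for the curves in `S_X`, and for all but at most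
   `(a/2) N(X)` of them rank `=` analytic rank `= (1 - w_E)/2`.
4. If more than `ρ N(X)` of the curves in `S_X` have a rank different from `(1 - w_E)/2` (for example rank `≥ 2`), then for
   every `a ≤ 2 ρ` and every `B` the bound with `κ = m₋(X) + a N(X)` fails for ALL large `Y`.
-/

set_option autoImplicit false

namespace Pool.Agent.Results.MP_81dc49_nt.AverageRankWindows

open Filter Topology Set Complex NumberField IsDedekindDomain MeasureTheory
open Pool.Agent.Q18.P (NoZeros Order Holo MeanBound excess ord)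
open Pool.Agent.Q18.P.EC (Good Euler rank)

/-- the pairs `(a, b)` -/
abbrev Pairs : Type := {x : ℚ × ℚ // 4 * x.1 ^ 3 + 27 * x.2 ^ 2 ≠ 0}

/-- the height `max (|m|, n)` of `m / n` in lowest terms -/
def height (x : ℚ) : ℕ := max x.num.natAbs x.den

/-- What is known about the elliptic curves `E_{a,b}` over `ℚ`: `A`, `B` are integral models, `F` the `L`-functions without
the Euler factors at `S`, `w` the root numbers. -/
structure Curves (A B : Pairs → 𝓞 ℚ) (S : Pairs → Finset (HeightOneSpectrum (𝓞 ℚ))) (F : Pairs → ℂ → ℂ)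
    (w : Pairs → ℤ) : Prop where
  model : ∀ i, ∃ u : ℚ, u ≠ 0 ∧ (A i : ℚ) = u ^ 4 * i.1.1 ∧ (B i : ℚ) = u ^ 6 * i.1.2
  good : ∀ i v, v ∉ S i → Good (A i) (B i) v
  /-- the Euler product -/
  euler : ∀ i, Euler (S i) (A i) (B i) (F i)
  /-- holomorphic of polynomial growth in a half plane `Re s > 1 - η` (modularity) -/
  holo : ∀ i, Holo 1 (F i)
  sign : ∀ i, w i = 1 ∨ w i = -1
  /-- the functional equation -/
  even : ∀ i, w i = 1 → ∀ m : ℤ, Order 1 (F i) m → 2 ∣ m
  odd : ∀ i, w i = -1 → ∀ m : ℤ, Order 1 (F i) m → 2 ∣ m - 1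
  /-- Gross-Zagier, Kolyvagin -/
  zero : ∀ i, Order 1 (F i) 0 → rank (A i) (B i) = 0
  one : ∀ i, Order 1 (F i) 1 → rank (A i) (B i) = 1

open scoped Classical in
/-- the box `S_X` -/
noncomputable def box (X : ℕ) : Finset Pairs :=
  if h : {i : Pairs | height i.1.1 ≤ X ∧ height i.1.2 ≤ X}.Finite then h.toFinset else ∅

/-- `P_X(y)` -/
noncomputable def product (A B : Pairs → 𝓞 ℚ) (S : Pairs → Finset (HeightOneSpectrum (𝓞 ℚ))) (X : ℕ) (y : ℝ) : ℝ :=
  ∏ i ∈ box X, Pool.Agent.Q18.P.EC.product (S i) (A i) (B i) y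

open scoped Classical in
/-- the number of the curves in `S_X` with a property -/
noncomputable def number (P : Pairs → Prop) (X : ℕ) : ℕ := ((box X).filter P).card

/-- `(1 - w)/2` -/
def eps (w : Pairs → ℤ) (i : Pairs) : ℤ := if w i = -1 then 1 else 0

theorem height_finite (X : ℕ) : {x : ℚ | height x ≤ X}.Finite := by
  have h1 : (fun x : ℚ => (x.num, x.den)) '' {x : ℚ | height x ≤ X} ⊆
      (Set.Icc (-(X : ℤ)) X) ×ˢ (Set.Iic X) := by
    rintro _ ⟨x, hx, rfl⟩
    have h2 : x.num.natAbs ≤ X := (le_max_left _ _).trans hx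
    have h3 : x.den ≤ X := (le_max_right _ _).trans hx
    refine ⟨?_, h3⟩
    rw [Set.mem_Icc, ← abs_le, Int.abs_eq_natAbs]
    exact_mod_cast h2
  refine Set.Finite.of_finite_image (((Set.finite_Icc _ _).prod (Set.finite_Iic _)).subset h1) ?_
  intro x _ y _ hxy
  simp only [Prod.mk.injEq] at hxy
  exact Rat.ext hxy.1 hxy.2

theorem mem_box (i : Pairs) (X : ℕ) : i ∈ box X ↔ height i.1.1 ≤ X ∧ height i.1.2 ≤ X := by
  have h1 : {i : Pairs | height i.1.1 ≤ X ∧ height i.1.2 ≤ X}.Finite := by
    refine Set.Finite.of_finite_image (f := fun i : Pairs => i.1)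
      (((height_finite X).prod (height_finite X)).subset ?_) Subtype.val_injective.injOn
    rintro _ ⟨i, hi, rfl⟩
    exact ⟨hi.1, hi.2⟩
  unfold box
  rw [dif_pos h1, Set.Finite.mem_toFinset]
  rfl

theorem number_le {P : Pairs → Prop} {X : ℕ} {Z : Finset Pairs} (h : ∀ i ∈ box X, P i → i ∈ Z) :
    number P X ≤ Z.card := by
  classical
  unfold number
  exact Finset.card_le_card fun i hi => h i (Finset.mem_filter.1 hi).1 (Finset.mem_filter.1 hi).2

theorem number_mono {P R : Pairs → Prop} {X : ℕ} (h : ∀ i ∈ box X, P i → R i) : number P X ≤ number R X := by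
  classical
  unfold number
  exact Finset.card_le_card fun i hi => Finset.mem_filter.2 ⟨(Finset.mem_filter.1 hi).1,
    h i (Finset.mem_filter.1 hi).1 (Finset.mem_filter.1 hi).2⟩

/-- two properties which agree outside a set -/
theorem card_close {I : Type*} [DecidableEq I] (T Z : Finset I) (P R : I → Prop) [DecidablePred P] [DecidablePred R]
    (h : ∀ i ∈ T, i ∉ Z → (P i ↔ R i)) : |((T.filter P).card : ℝ) - (T.filter R).card| ≤ Z.card := by
  have h1 : T.filter P ⊆ T.filter R ∪ Z := by
    intro i hi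
    rw [Finset.mem_filter] at hi
    rw [Finset.mem_union, Finset.mem_filter]
    by_cases h2 : i ∈ Z
    · exact Or.inr h2
    · exact Or.inl ⟨hi.1, (h i hi.1 h2).1 hi.2⟩
  have h2 : T.filter R ⊆ T.filter P ∪ Z := by
    intro i hi
    rw [Finset.mem_filter] at hi
    rw [Finset.mem_union, Finset.mem_filter]
    by_cases h2 : i ∈ Z
    · exact Or.inr h2
    · exact Or.inl ⟨hi.1, (h i hi.1 h2).2 hi.2⟩
  have h3 := (Finset.card_le_card h1).trans (Finset.card_union_le _ _)
  have h4 := (Finset.card_le_card h2).trans (Finset.card_union_le _ _)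
  have h5 : ((T.filter P).card : ℝ) ≤ (T.filter R).card + Z.card := by exact_mod_cast h3
  have h6 : ((T.filter R).card : ℝ) ≤ (T.filter P).card + Z.card := by exact_mod_cast h4
  rw [abs_le]
  constructor <;> linarith

/-- **The average rank in boxes, and one-sided bounds for Euler products on one sequence of windows.** -/
theorem result (A B : Pairs → 𝓞 ℚ) (S : Pairs → Finset (HeightOneSpectrum (𝓞 ℚ))) (F : Pairs → ℂ → ℂ)
    (w : Pairs → ℤ) (h : Curves A B S F w) (δ : ℝ) (h0 : 0 < δ) (h1 : δ < 1) :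
    -- (1) the Riemann hypothesis and the average order
    List.TFAE [
      (∀ i, NoZeros 1 (F i)) ∧
        Tendsto (fun X => ((∑ i ∈ box X, (ord 1 (F i) - eps w i) : ℤ) : ℝ) / (box X).card) atTop (𝓝 0),
      ∀ η : ℝ, 0 < η → ∀ᶠ X in atTop, ∃ C : ℝ, ∃ᶠ Y : ℝ in atTop,
        MeanBound δ (excess (product A B S X) (number (fun i => w i = -1) X + η * (box X).card)) C Y,
      ∀ η : ℝ, 0 < η → ∀ᶠ X in atTop, ∃ C : ℝ, ∀ᶠ Y : ℝ in atTop,
        MeanBound δ (excess (product A B S X) (number (fun i => w i = -1) X + η * (box X).card)) C Y] ∧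
    -- (2) the distribution of the ranks
    ((∀ η : ℝ, 0 < η → ∀ᶠ X in atTop, ∃ C : ℝ, ∃ᶠ Y : ℝ in atTop,
        MeanBound δ (excess (product A B S X) (number (fun i => w i = -1) X + η * (box X).card)) C Y) →
      ∀ p : ℝ, Tendsto (fun X => (number (fun i => w i = -1) X : ℝ) / (box X).card) atTop (𝓝 p) →
        Tendsto (fun X => (number (fun i => rank (A i) (B i) = 1) X : ℝ) / (box X).card) atTop (𝓝 p) ∧
        Tendsto (fun X => (number (fun i => rank (A i) (B i) = 0) X : ℝ) / (box X).card) atTop (𝓝 (1 - p)) ∧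
        Tendsto (fun X => ((∑ i ∈ box X, ord 1 (F i) : ℤ) : ℝ) / (box X).card) atTop (𝓝 p)) ∧
    -- (3) one box
    (∀ (a C : ℝ) (X : ℕ), (∃ᶠ Y : ℝ in atTop,
        MeanBound δ (excess (product A B S X) (number (fun i => w i = -1) X + a * (box X).card)) C Y) →
      (∀ i ∈ box X, NoZeros 1 (F i)) ∧
      (number (fun i => ¬ (Order 1 (F i) (eps w i) ∧ (rank (A i) (B i) : ℤ) = eps w i)) X : ℝ) ≤
        a / 2 * (box X).card) ∧
    -- (4) in every window
    (∀ (a ρ C : ℝ) (X : ℕ), ρ * (box X).card < number (fun i => (rank (A i) (B i) : ℤ) ≠ eps w i) X → a ≤ 2 * ρ →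
      ∀ᶠ Y : ℝ in atTop,
        ¬ MeanBound δ (excess (product A B S X) (number (fun i => w i = -1) X + a * (box X).card)) C Y) := by
  classical
  set α : (i : Pairs) → HeightOneSpectrum (𝓞 ℚ) → Fin 2 → ℂ := fun i => Pool.Agent.Q18.P.EC.al (A i) (B i) with hα
  have hc := Pool.Agent.Q18.P.EC.one_c
  have hF : Pool.Agent.Q18.P.Family 1 1 S (n := fun _ : Pairs => 2) α F (eps w) :=
    { bdd := fun i => (Pool.Agent.Q18.P.EC.pure (h.good i)).le
      holo := h.holo
      euler := fun i => Pool.Agent.Q18.P.EC.euler (h.good i) (h.euler i)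
      range := fun i => by
        unfold eps
        split_ifs
        · exact Or.inr rfl
        · exact Or.inl rfl
      parity := fun i m hm => by
        rcases h.sign i with h3 | h3
        · have h5 : eps w i = 0 := by unfold eps; rw [h3]; norm_num
          rw [h5, sub_zero]
          exact h.even i h3 m hm
        · have h5 : eps w i = 1 := by unfold eps; rw [if_pos h3]
          rw [h5]
          exact h.odd i h3 m hm }
  have e0 : ∀ X, product A B S X = Pool.Agent.Q18.P.joint 1 S (n := fun _ : Pairs => 2) α (box X) := by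
    intro X
    funext y
    unfold product Pool.Agent.Q18.P.joint
    refine Finset.prod_congr rfl fun i _ => ?_
    rw [Pool.Agent.Q18.P.EC.product_eq (h.good i)]
  have hminus : ∀ X, ((∑ i ∈ box X, eps w i : ℤ) : ℝ) = number (fun i => w i = -1) X := by
    intro X
    unfold number eps
    rw [Finset.sum_boole]
    push_cast
    congr!
  have hT : ∀ i : Pairs, ∀ᶠ X in atTop, i ∈ box X := fun i =>
    (eventually_ge_atTop (max (height i.1.1) (height i.1.2))).mono fun X hX =>
      (mem_box i X).2 ⟨(le_max_left _ _).trans hX, (le_max_right _ _).trans hX⟩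
  have hrank : ∀ i, Order 1 (F i) (eps w i) → (rank (A i) (B i) : ℤ) = eps w i := by
    intro i hi
    rcases h.sign i with h3 | h3
    · have h5 : eps w i = 0 := by unfold eps; rw [h3]; norm_num
      rw [h5] at hi ⊢
      rw [h.zero i hi]
      rfl
    · have h5 : eps w i = 1 := by unfold eps; rw [if_pos h3]
      rw [h5] at hi ⊢
      rw [h.one i hi]
      rfl
  have tf := hF.avg hc hT h0 h1
  simp only [hminus, ← e0] at tf
  have first : ∀ (a C : ℝ) (X : ℕ), (∃ᶠ Y : ℝ in atTop,
        MeanBound δ (excess (product A B S X) (number (fun i => w i = -1) X + a * (box X).card)) C Y) →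
      (∀ i ∈ box X, NoZeros 1 (F i)) ∧
      (number (fun i => ¬ (Order 1 (F i) (eps w i) ∧ (rank (A i) (B i) : ℤ) = eps w i)) X : ℝ) ≤
        a / 2 * (box X).card := by
    intro a C X hB
    rw [e0] at hB
    obtain ⟨h2, h3⟩ := hF.count hc (box X) h0 h1 hB
    refine ⟨h2, ?_⟩
    rw [hminus] at h3
    have h4 : number (fun i => ¬ (Order 1 (F i) (eps w i) ∧ (rank (A i) (B i) : ℤ) = eps w i)) X ≤
        (Pool.Agent.Q18.P.nonmin 1 F (eps w) (box X)).card := by
      refine number_le fun i hi1 hi2 => ?_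
      unfold Pool.Agent.Q18.P.nonmin
      exact Finset.mem_filter.2 ⟨hi1, fun h5 => hi2 ⟨h5, hrank i h5⟩⟩
    have h5 : (number (fun i => ¬ (Order 1 (F i) (eps w i) ∧ (rank (A i) (B i) : ℤ) = eps w i)) X : ℝ) ≤
        (Pool.Agent.Q18.P.nonmin 1 F (eps w) (box X)).card := by exact_mod_cast h4
    linarith
  refine ⟨tf, fun hB p hp => ?_, first, fun a ρ C X hρ ha => ?_⟩
  · have t : ((∀ i, NoZeros 1 (F i)) ∧
        Tendsto (fun X => ((∑ i ∈ box X, (ord 1 (F i) - eps w i) : ℤ) : ℝ) / (box X).card) atTop (𝓝 0)) ↔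
      ∀ η : ℝ, 0 < η → ∀ᶠ X in atTop, ∃ C : ℝ, ∃ᶠ Y : ℝ in atTop,
        MeanBound δ (excess (product A B S X) (number (fun i => w i = -1) X + η * (box X).card)) C Y := tf.out 0 1
    obtain ⟨hz, hl⟩ := t.2 hB
    have i₀ : Pairs := ⟨(1, 0), by norm_num⟩
    have hne : ∀ᶠ X in atTop, (box X).Nonempty := (hT i₀).mono fun X hX => ⟨i₀, hX⟩
    have h2 := hF.density hne hz hl
    have heps : ∀ i, eps w i = 1 ↔ w i = -1 := by
      intro i
      unfold eps
      split_ifs with h6
      · exact ⟨fun _ => h6, fun _ => rfl⟩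
      · exact ⟨fun h7 => absurd h7 (by norm_num), fun h7 => absurd h7 h6⟩
    have heps0 : ∀ i, eps w i = 0 ↔ ¬ w i = -1 := by
      intro i
      unfold eps
      split_ifs with h6
      · exact ⟨fun h7 => absurd h7 (by norm_num), fun h7 => absurd h6 h7⟩
      · exact ⟨fun _ => h6, fun _ => rfl⟩
    have hoff : ∀ X, ∀ i ∈ box X, i ∉ Pool.Agent.Q18.P.nonmin 1 F (eps w) (box X) →
        (rank (A i) (B i) : ℤ) = eps w i := by
      intro X i hi hni
      refine hrank i ?_
      by_contra h6
      exact hni (by unfold Pool.Agent.Q18.P.nonmin; exact Finset.mem_filter.2 ⟨hi, h6⟩)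
    have key : ∀ (P R : Pairs → Prop) (l : ℝ), (∀ X, ∀ i ∈ box X, i ∉ Pool.Agent.Q18.P.nonmin 1 F (eps w) (box X) →
        (P i ↔ R i)) → Tendsto (fun X => (number R X : ℝ) / (box X).card) atTop (𝓝 l) →
        Tendsto (fun X => (number P X : ℝ) / (box X).card) atTop (𝓝 l) := by
      intro P R l hPR hl'
      have h6 : Tendsto (fun X => (number P X : ℝ) / (box X).card - (number R X : ℝ) / (box X).card) atTop (𝓝 0) := by
        refine squeeze_zero_norm (fun X => ?_) h2
        rw [← sub_div, Real.norm_eq_abs, abs_div, Nat.abs_cast]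
        exact div_le_div_of_nonneg_right (card_close (box X) _ P R (hPR X)) (Nat.cast_nonneg _)
      have h7 := h6.add hl'
      simpa using h7
    have hcompl : Tendsto (fun X => (number (fun i => ¬ w i = -1) X : ℝ) / (box X).card) atTop (𝓝 (1 - p)) := by
      refine ((tendsto_const_nhds (x := (1 : ℝ))).sub hp).congr' ?_
      filter_upwards [hne] with X hX
      have h8 : (((box X).card : ℕ) : ℝ) ≠ 0 := by exact_mod_cast (Finset.card_pos.2 hX).ne'
      have h9 := Finset.card_filter_add_card_filter_not (s := box X) (fun i => w i = -1)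
      have h10 : (number (fun i => w i = -1) X : ℝ) + number (fun i => ¬ w i = -1) X = (box X).card := by
        unfold number
        exact_mod_cast h9
      rw [← h10, eq_div_iff (by rw [h10]; exact h8)]
      rw [← h10] at h8
      field_simp
      ring
    refine ⟨key _ _ p (fun X i hi hni => ?_) hp, key _ _ (1 - p) (fun X i hi hni => ?_) hcompl, ?_⟩
    · rw [← heps i, ← hoff X i hi hni]
      norm_cast
    · rw [← heps0 i, ← hoff X i hi hni]
      norm_cast
    · have h11 : ∀ X, ((∑ i ∈ box X, ord 1 (F i) : ℤ) : ℝ) / (box X).card =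
          ((∑ i ∈ box X, (ord 1 (F i) - eps w i) : ℤ) : ℝ) / (box X).card +
            (number (fun i => w i = -1) X : ℝ) / (box X).card := by
        intro X
        rw [← hminus, ← add_div, ← Int.cast_add, Finset.sum_sub_distrib, sub_add_cancel]
      simp only [h11]
      simpa using hl.add hp
  · by_contra hne
    rw [Filter.not_eventually] at hne
    have hB := hne.mono fun Y hY => not_not.1 hY
    have h2 := (first a C X hB).2
    have h3 : number (fun i => (rank (A i) (B i) : ℤ) ≠ eps w i) X ≤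
        number (fun i => ¬ (Order 1 (F i) (eps w i) ∧ (rank (A i) (B i) : ℤ) = eps w i)) X :=
      number_mono fun i _ hi2 h5 => hi2 h5.2
    have h4 : (number (fun i => (rank (A i) (B i) : ℤ) ≠ eps w i) X : ℝ) ≤
        number (fun i => ¬ (Order 1 (F i) (eps w i) ∧ (rank (A i) (B i) : ℤ) = eps w i)) X := by exact_mod_cast h3
    have h5 : (0 : ℝ) ≤ (box X).card := Nat.cast_nonneg _
    nlinarith

end Pool.Agent.Results.MP_81dc49_nt.AverageRankWindows
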