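import Pool.Agent.Y703.XL.InfC

/-!
# The ranks of the cubic twists `y² + D y = x³` over the global field `ℚ(√-3)`

`K` is the field of third roots of unity, `E_D : y² + D y = x³` (isomorphic to `E_{a,b}` with `a = 0`,
`b = 16 D²`), and `D` runs through the squarefree `D = 1` modulo `3` of `𝓞 K` whose norm is not `1`
modulo `9`, ordered by the norm; there are at least `c X` such `D` of norm at most `X`. All the ranks
are even. At least 63.9 percent of the curves have rank `0`, at least 95.8 percent have rank at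
most `2`, at least 99.8 percent rank at most `4`, and in general the lower density of the curves of rank
less than `2 R` is at least `∑_{r < R} prob r`, which differs from `1` by `O(3^{-R (R + 1) / 2})`. The
upper average rank is at most `0.81`, and the upper average of `√3 ^ rank` is at most `2`.

The law of the order of the kernel of `√-3` on the `3^∞`-Selmer group and its mean value are the
starting theorem `CubicTwistsThreeInfinity` (MP_a3f657_nt, library theorem
`Pool.Agent.Y703.XL.Inf.finalInf`); here they are turned into statements on the ranks: the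
convergence of all means that are dominated by the order, and the parity of the rank.
-/

set_option autoImplicit false

open scoped Classical

namespace Pool.Agent.Results.MP_81dc49_nt.CubicTwistRanks

open NumberField WeierstrassCurve Filter Topology Finset

/-- the curve `E_D : y² + D y = x³` -/
def curve {K : Type} [Field K] (D : K) : WeierstrassCurve K := ⟨0, 0, D, 0, 0⟩

/-- the rank of `E_D(K)` -/
noncomputable def rank {K : Type} [Field K] (D : K) : ℕ :=
  Module.finrank ℤ (curve D).toAffine.Point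

/-- `D` is squarefree and `1` modulo `3`, and its norm is not `1` modulo `9`. -/
def InClass {K : Type} [Field K] [NumberField K] (D : 𝓞 K) : Prop :=
  (3 : 𝓞 K) ∣ D - 1 ∧ Squarefree D ∧ ¬ (9 : ℤ) ∣ Algebra.norm ℤ D - 1

/-- The `D` of the class of norm at most `X`. -/
def upTo (K : Type) [Field K] [NumberField K] (X : ℕ) : Set (𝓞 K) :=
  {D : 𝓞 K | Algebra.norm ℤ D ≤ X ∧ InClass D}

/-- the proportion of the `D` of the class of norm at most `X` for which the rank of `E_D(K)` is
in `S` -/
noncomputable def proportion (K : Type) [Field K] [NumberField K] (S : Set ℕ) (X : ℕ) : ℝ :=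
  ((upTo K X ∩ {D : 𝓞 K | rank (D : K) ∈ S}).ncard : ℝ) / (upTo K X).ncard

/-- the average of `f (rank)` over the `D` of the class of norm at most `X` -/
noncomputable def average (K : Type) [Field K] [NumberField K] (f : ℕ → ℝ) (X : ℕ) : ℝ :=
  (∑ᶠ D ∈ upTo K X, f (rank (D : K))) / (upTo K X).ncard

/-- `∏_{i ≥ 0} (1 - 3^{-(2 i + 1)}) / ((3 - 1) (9 - 1) ⋯ (3 ^ r - 1))` -/
noncomputable def prob (r : ℕ) : ℝ :=
  (∏' i : ℕ, (1 - (1 / 3 : ℝ) ^ (2 * i + 1))) / ∏ i ∈ range r, ((3 : ℝ) ^ (i + 1) - 1)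

section aux

theorem even_finrank (G : Type) [AddCommGroup G] (f : G →+ G) (hf : ∀ x, f (f x) = -(3 • x)) :
    Even (Module.finrank ℤ G) := by
  have h1 : Module.finrank ℚ (TensorProduct ℤ ℚ G) = Module.finrank ℤ G :=
    (TensorProduct.isBaseChange ℤ G ℚ).finrank_eq
  rw [← h1]
  set F : TensorProduct ℤ ℚ G →ₗ[ℚ] TensorProduct ℤ ℚ G := f.toIntLinearMap.baseChange ℚ with hF
  have h3 : F ∘ₗ F = (-3 : ℚ) • (LinearMap.id : TensorProduct ℤ ℚ G →ₗ[ℚ] TensorProduct ℤ ℚ G) := by
    apply LinearMap.ext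
    intro x
    induction x using TensorProduct.induction_on with
    | zero => simp
    | tmul a g =>
      rw [LinearMap.comp_apply, hF, LinearMap.baseChange_tmul, LinearMap.baseChange_tmul]
      have : f.toIntLinearMap (f.toIntLinearMap g) = -(3 • g) := hf g
      rw [this, LinearMap.smul_apply, LinearMap.id_apply, TensorProduct.tmul_neg,
        TensorProduct.tmul_smul]
      rw [neg_smul]
      congr 1
    | add x y hx hy =>
      rw [map_add, hx, hy, map_add]
  have h4 := congrArg LinearMap.det h3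
  rw [LinearMap.det_comp, LinearMap.det_smul, LinearMap.det_id, mul_one] at h4
  by_contra h
  rw [Nat.not_even_iff_odd] at h
  have h5 : (-3 : ℚ) ^ Module.finrank ℚ (TensorProduct ℤ ℚ G) < 0 := h.pow_neg (by norm_num)
  rw [← h4] at h5
  exact absurd h5 (not_lt.2 (mul_self_nonneg _))

theorem even_rank {K : Type} [Field K] [CharZero K] {D z : K} (hD : D ≠ 0)
    (hz : z ^ 2 + z + 1 = 0) : Even (rank D) := by
  have h1 := even_finrank _ (Pool.Agent.Y703.XL.Inf.ph (D := D) (L := K) hz)
    (Pool.Agent.Y703.XL.Inf.ph_ph hD hz)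
  have h2 : (Pool.Agent.Y703.XL.Inf.E1 D).baseChange K = curve D := by
    unfold Pool.Agent.Y703.XL.Inf.E1 curve WeierstrassCurve.baseChange WeierstrassCurve.map
    simp
  have h3 : ∀ W : WeierstrassCurve K, W = curve D →
      Even (Module.finrank ℤ W.toAffine.Point) → Even (rank D) := by
    rintro W rfl h
    exact h
  exact h3 _ h2 h1

/-- `j ≤ (10 / 3 ^ 10) 3 ^ j` for `j ≥ 10` -/
lemma lin_le (j : ℕ) (hj : 10 ≤ j) : (j : ℝ) ≤ 10 / 3 ^ 10 * 3 ^ j := by
  induction j, hj using Nat.le_induction with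
  | base => norm_num
  | succ j hj ih =>
    push_cast
    have h1 : (10 : ℝ) ≤ j := by exact_mod_cast hj
    have h2 : (10 : ℝ) / 3 ^ 10 * 3 ^ (j + 1) = 3 * (10 / 3 ^ 10 * 3 ^ j) := by ring
    rw [h2]
    linarith

end aux

/-- the average of a function over a finite set -/
theorem main_avg {ι : Type} (T : ℕ → Finset ι) (r : ι → ℕ) (rk : ι → ℕ) (hrk : ∀ i, rk i ≤ 2 * r i)
    (p : ℕ → ℝ) (hT : ∀ᶠ X in atTop, (T X).Nonempty)
    (hp : ∀ j, Tendsto (fun X => (((T X).filter fun i => r i = j).card : ℝ) / (T X).card) atTop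
      (𝓝 (p j)))
    (ha : Tendsto (fun X => (∑ i ∈ T X, (3 : ℝ) ^ r i) / (T X).card) atTop (𝓝 2)) :
    (∀ R : ℕ, ∀ ε : ℝ, 0 < ε → ∀ᶠ X in atTop, ∑ j ∈ range R, p j - ε ≤
      (((T X).filter fun i => rk i < 2 * R).card : ℝ) / (T X).card) ∧
    (∀ ε : ℝ, 0 < ε → ∀ᶠ X in atTop,
      (∑ i ∈ T X, (rk i : ℝ)) / (T X).card ≤ ∑ j ∈ range 10, 2 * (j : ℝ) * p j + 40 / 3 ^ 10 + ε) ∧
    (∀ ε : ℝ, 0 < ε → ∀ᶠ X in atTop,
      (∑ i ∈ T X, Real.sqrt 3 ^ rk i) / (T X).card ≤ 2 + ε) := by
  refine ⟨fun R ε hε => ?_, fun ε hε => ?_, fun ε hε => ?_⟩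
  · have h1 : Tendsto (fun X => ∑ j ∈ range R,
        (((T X).filter fun i => r i = j).card : ℝ) / (T X).card) atTop (𝓝 (∑ j ∈ range R, p j)) :=
      tendsto_finsetSum _ fun j _ => hp j
    filter_upwards [h1.eventually (lt_mem_nhds (by linarith : ∑ j ∈ range R, p j - ε <
      ∑ j ∈ range R, p j))] with X hX
    refine hX.le.trans ?_
    rw [← Finset.sum_div]
    refine div_le_div_of_nonneg_right ?_ (Nat.cast_nonneg _)
    rw [← Nat.cast_sum]
    have h2 : ∑ j ∈ range R, ((T X).filter fun i => r i = j).card =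
        ((T X).filter fun i => r i < R).card := by
      rw [Finset.card_eq_sum_card_fiberwise (f := r) (t := range R) (s := (T X).filter fun i => r i < R)]
      · refine Finset.sum_congr rfl fun j hj => ?_
        congr 1
        ext i
        simp only [mem_filter, mem_range] at hj ⊢
        constructor
        · rintro ⟨h, rfl⟩
          exact ⟨⟨h, hj⟩, rfl⟩
        · rintro ⟨⟨h, -⟩, h'⟩
          exact ⟨h, h'⟩
      · intro i hi
        simpa using (mem_filter.1 hi).2
    rw [h2]
    have h3 : ((T X).filter fun i => r i < R).card ≤ ((T X).filter fun i => rk i < 2 * R).card := by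
      refine Finset.card_le_card fun i hi => ?_
      rw [mem_filter] at hi ⊢
      have := hrk i
      exact ⟨hi.1, by omega⟩
    exact_mod_cast h3
  · have h1 : Tendsto (fun X => ∑ j ∈ range 10,
        2 * (j : ℝ) * ((((T X).filter fun i => r i = j).card : ℝ) / (T X).card) +
        20 / 3 ^ 10 * ((∑ i ∈ T X, (3 : ℝ) ^ r i) / (T X).card)) atTop
        (𝓝 (∑ j ∈ range 10, 2 * (j : ℝ) * p j + 20 / 3 ^ 10 * 2)) :=
      (tendsto_finsetSum _ fun j _ => (hp j).const_mul _).add (ha.const_mul _)
    have h3 : ∑ j ∈ range 10, 2 * (j : ℝ) * p j + 20 / 3 ^ 10 * 2 <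
      ∑ j ∈ range 10, 2 * (j : ℝ) * p j + 40 / 3 ^ 10 + ε := by
      have : (20 : ℝ) / 3 ^ 10 * 2 = 40 / 3 ^ 10 := by norm_num
      rw [this]
      linarith
    filter_upwards [h1.eventually (gt_mem_nhds h3), hT] with X hX hne
    refine le_trans ?_ hX.le
    have hc : (0 : ℝ) < (T X).card := by exact_mod_cast hne.card_pos
    have e1 : ∑ j ∈ range 10,
        2 * (j : ℝ) * ((((T X).filter fun i => r i = j).card : ℝ) / (T X).card) +
        20 / 3 ^ 10 * ((∑ i ∈ T X, (3 : ℝ) ^ r i) / (T X).card) =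
        (∑ i ∈ T X, ((∑ j ∈ range 10, if r i = j then 2 * (j : ℝ) else 0) +
          20 / 3 ^ 10 * (3 : ℝ) ^ r i)) / (T X).card := by
      rw [Finset.sum_add_distrib, ← Finset.mul_sum, add_div, mul_div_assoc]
      congr 1
      rw [Finset.sum_comm, Finset.sum_div]
      refine Finset.sum_congr rfl fun j _ => ?_
      rw [← Finset.sum_filter, Finset.sum_const, nsmul_eq_mul]
      ring
    rw [e1]
    refine div_le_div_of_nonneg_right (Finset.sum_le_sum fun i _ => ?_) hc.le
    have h4 : (rk i : ℝ) ≤ 2 * r i := by exact_mod_cast hrk i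
    refine h4.trans ?_
    rcases lt_or_ge (r i) 10 with h | h
    · rw [Finset.sum_eq_single (r i) (fun j _ hj => if_neg hj.symm)
        (fun hn => absurd (mem_range.2 h) hn), if_pos rfl]
      have : (0 : ℝ) ≤ 20 / 3 ^ 10 * 3 ^ r i := by positivity
      linarith
    · have h5 := lin_le (r i) h
      have h6 : (0 : ℝ) ≤ ∑ j ∈ range 10, if r i = j then 2 * (j : ℝ) else 0 :=
        Finset.sum_nonneg fun j _ => by split_ifs <;> positivity
      have h7 : (20 : ℝ) / 3 ^ 10 * 3 ^ r i = 2 * (10 / 3 ^ 10 * 3 ^ r i) := by ring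
      rw [h7]
      linarith
  · filter_upwards [ha.eventually (gt_mem_nhds (by linarith : (2 : ℝ) < 2 + ε))] with X hX
    refine le_trans ?_ hX.le
    refine div_le_div_of_nonneg_right (Finset.sum_le_sum fun i _ => ?_) (Nat.cast_nonneg _)
    have h1 : (1 : ℝ) ≤ Real.sqrt 3 := by
      rw [Real.one_le_sqrt]
      norm_num
    calc Real.sqrt 3 ^ rk i ≤ Real.sqrt 3 ^ (2 * r i) := pow_le_pow_right₀ h1 (hrk i)
      _ = 3 ^ r i := by rw [pow_mul, Real.sq_sqrt (by norm_num)]

/-- **Theorem.** Let `K` be the field of third roots of unity. (1) At least `c X` elements `D` of the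
class have norm at most `X`. (2) The rank of `E_D(K)` is even for all `D` of the class. (3) For
every `R` the lower density of the `D` for which the rank is less than `2 R` is at least
`∑_{r < R} prob r`; this number is larger than `0.639`, `0.958`, `0.998` for `R = 1, 2, 3` and tends to
`1`. (4) For all large `X` the average of the ranks over the `D` of norm at most `X` is less than
`0.81`. (5) The upper average of `√3 ^ rank` is at most `2`. -/
theorem result (K : Type) [Field K] [NumberField K] [IsCyclotomicExtension {3} ℚ K] :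
    (∃ c : ℝ, 0 < c ∧ ∃ X₀ : ℕ, ∀ X : ℕ, X₀ ≤ X → c * X ≤ ((upTo K X).ncard : ℝ)) ∧
    (∀ D : 𝓞 K, InClass D → Even (rank (D : K))) ∧
    (∀ R : ℕ, ∀ ε : ℝ, 0 < ε → ∀ᶠ X : ℕ in atTop,
      ∑ r ∈ range R, prob r - ε ≤ proportion K {n | n < 2 * R} X) ∧
    (0.639 < ∑ r ∈ range 1, prob r ∧ 0.958 < ∑ r ∈ range 2, prob r ∧
      0.998 < ∑ r ∈ range 3, prob r ∧ HasSum prob 1) ∧
    (∀ᶠ X : ℕ in atTop, average K (fun n => (n : ℝ)) X < 0.81) ∧
    ∀ ε : ℝ, 0 < ε → ∀ᶠ X : ℕ in atTop, average K (fun n => Real.sqrt 3 ^ n) X ≤ 2 + ε := by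
  obtain ⟨ω, hω⟩ : ∃ ω : K, ω ^ 2 + ω + 1 = 0 := by
    have h := IsCyclotomicExtension.zeta_spec 3 ℚ K
    refine ⟨IsCyclotomicExtension.zeta 3 ℚ K, ?_⟩
    have h1 := h.isRoot_cyclotomic (by norm_num)
    rw [Polynomial.cyclotomic_three] at h1
    simpa using h1
  obtain ⟨⟨c, hc, X₀, h1⟩, h2, h3, -, ⟨h5, h6, h7⟩, h8⟩ :=
    Pool.Agent.Y703.XL.Inf.finalInf K ω hω
  have hfin : ∀ᶠ X : ℕ in atTop, (upTo K X).Finite ∧ (upTo K X).Nonempty := by
    filter_upwards [eventually_ge_atTop (max X₀ 1)] with X hX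
    have g1 := h1 X ((le_max_left _ _).trans hX)
    have g2 : (0 : ℝ) < c * X := by
      have : (1 : ℝ) ≤ X := by exact_mod_cast (le_max_right _ _).trans hX
      positivity
    have g3 : 0 < (upTo K X).ncard := by
      have := g2.trans_le g1
      exact_mod_cast this
    exact ⟨Set.finite_of_ncard_pos g3, Set.nonempty_of_ncard_ne_zero g3.ne'⟩
  -- the exponent
  let r : 𝓞 K → ℕ := fun D =>
    if h : InClass D then (h2 D h).1.choose else rank (D : K)
  have hr : ∀ D, InClass D → (Pool.Agent.Y703.XL.Inf.killed ω (D : K)).ncard = 3 ^ r D := by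
    intro D hD
    have e : r D = (h2 D hD).1.choose := dif_pos hD
    rw [e]
    exact (h2 D hD).1.choose_spec.1
  have hrk : ∀ D : 𝓞 K, rank (D : K) ≤ 2 * r D := by
    intro D
    by_cases hD : InClass D
    · have e : r D = (h2 D hD).1.choose := dif_pos hD
      rw [e]
      exact (h2 D hD).1.choose_spec.2
    · have e : r D = rank (D : K) := dif_neg hD
      rw [e]
      omega
  let T : ℕ → Finset (𝓞 K) := fun X => if h : (upTo K X).Finite then h.toFinset else ∅
  have hTe : ∀ X, ∀ h : (upTo K X).Finite, T X = h.toFinset := fun X h => dif_pos h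
  have hcard : ∀ X, (upTo K X).Finite → (upTo K X).ncard = (T X).card := fun X h => by
    rw [hTe X h, Set.ncard_eq_toFinset_card _ h]
  have hcardF : ∀ X, (upTo K X).Finite → ∀ (P : 𝓞 K → Prop) (_ : DecidablePred P),
      (upTo K X ∩ {D | P D}).ncard = ((T X).filter P).card := fun X h P _ => by
    rw [hTe X h, ← Set.ncard_coe_finset]
    congr 1
    ext D
    simp
  have hp : ∀ j, Tendsto (fun X => (((T X).filter fun i => r i = j).card : ℝ) / (T X).card) atTop
      (𝓝 (prob j)) := by
    intro j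
    refine (h3 j).congr' ?_
    filter_upwards [hfin] with X hX
    rw [← hcardF X hX.1, ← hcard X hX.1]
    congr 2
    refine congrArg Set.ncard (Set.ext fun D => ?_)
    constructor
    · rintro ⟨a1, a2, a3⟩
      refine ⟨⟨a1, a2⟩, ?_⟩
      have := hr D a2
      rw [a3] at this
      exact (Nat.pow_right_injective (le_refl 2 |>.trans (by norm_num)) this).symm
    · rintro ⟨⟨a1, a2⟩, a3⟩
      refine ⟨a1, a2, ?_⟩
      have := hr D a2
      rw [this]
      have a4 : r D = j := a3
      rw [a4]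
  have ha : Tendsto (fun X => (∑ i ∈ T X, (3 : ℝ) ^ r i) / (T X).card) atTop (𝓝 2) := by
    refine h8.congr' ?_
    filter_upwards [hfin] with X hX
    rw [← hcard X hX.1]
    have e : (∑ᶠ D ∈ upTo K X,
        ((Pool.Agent.Y703.XL.Inf.killed ω (D : K)).ncard : ℝ)) = ∑ i ∈ T X, (3 : ℝ) ^ r i := by
      rw [hTe X hX.1, finsum_mem_eq_finite_toFinset_sum _ hX.1]
      refine Finset.sum_congr rfl fun D hD => ?_
      rw [Set.Finite.mem_toFinset] at hD
      rw [hr D hD.2]
      push_cast
      rfl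
    rw [← e]
    rfl
  obtain ⟨m1, m2, m3⟩ := main_avg T r (fun D => rank (D : K)) hrk prob
    (by
      filter_upwards [hfin] with X hX
      rw [hTe X hX.1, Set.Finite.toFinset_nonempty]
      exact hX.2) hp ha
  have hP0 : prob 0 = ∏' i : ℕ, (1 - (1 / 3 : ℝ) ^ (2 * i + 1)) := by
    simp [prob]
  have h5' : 0.639 < prob 0 := h5
  have h6' : prob 0 < 0.6391 := h6
  have hpj : ∀ j, prob j = prob 0 * (∏ i ∈ range j, ((3 : ℝ) ^ (i + 1) - 1))⁻¹ := by
    intro j
    rw [hP0]
    rfl
  have havg : ∀ f : ℕ → ℝ, ∀ X, (upTo K X).Finite →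
      average K f X = (∑ D ∈ T X, f (rank (D : K))) / (T X).card := by
    intro f X hX
    unfold average
    rw [hcard X hX, hTe X hX, finsum_mem_eq_finite_toFinset_sum _ hX]
  refine ⟨⟨c, hc, X₀, h1⟩, fun D hD => even_rank (Pool.Agent.Y703.XL.Inf.ne_zero hD) hω,
    fun R ε hε => ?_, ⟨?_, ?_, ?_, h7⟩, ?_, fun ε hε => ?_⟩
  · filter_upwards [m1 R ε hε, hfin] with X hX hX'
    have e : (upTo K X ∩ {D : 𝓞 K | rank (D : K) ∈ {n | n < 2 * R}}).ncard =
        ((T X).filter fun D : 𝓞 K => rank (D : K) < 2 * R).card :=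
      hcardF X hX'.1 (fun D => rank (D : K) < 2 * R) inferInstance
    unfold proportion
    rw [hcard X hX'.1, e]
    exact hX
  · rw [Finset.sum_range_one]
    exact h5'
  · rw [Finset.sum_range_succ, Finset.sum_range_one, hpj 1]
    simp only [Finset.prod_range_one]
    norm_num
    linarith
  · rw [Finset.sum_range_succ, Finset.sum_range_succ, Finset.sum_range_one, hpj 1, hpj 2]
    simp only [Finset.prod_range_succ, Finset.prod_range_zero]
    norm_num
    linarith
  · filter_upwards [m2 0.0001 (by norm_num), hfin] with X hX hX'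
    rw [havg _ X hX'.1]
    refine lt_of_le_of_lt hX ?_
    rw [Finset.sum_congr rfl fun j _ => by rw [hpj j]]
    simp only [Finset.sum_range_succ, Finset.sum_range_zero, Finset.prod_range_succ,
      Finset.prod_range_zero]
    norm_num
    linarith
  · filter_upwards [m3 ε hε, hfin] with X hX hX'
    rw [havg _ X hX'.1]
    exact hX

end Pool.Agent.Results.MP_81dc49_nt.CubicTwistRanks
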