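import Pool.Agent.Q235.FE.Rat

/-!
# The truncated ranks of the curves `y² = X³ + (u/n) X + w/v`, numerators and denominators with few changed digits

The field of the problem is `k = ℚ` here.  For rational numbers `a = u/n`, `b = w/v` put

  `rank_x(a, b) = log (∏_{p ≤ x} #E(𝔽_p) / p) / log log x`,   `E : y² = X³ + a X + b`,

the product over the primes `p ≥ 3` which do not divide the denominators `n`, `v` and at which the reduction is
nonsingular.  (The finitely many other primes do not matter for the limit.)  Birch and Swinnerton-Dyer conjectured, in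
their original papers, that `rank_x` tends to the rank of `E(ℚ)` for `x → ∞`.  The problem asks whether ranks `0` and `1`
have probability `1/2` each, and whether the average rank is `1/2`, for the pairs `(a, b)` of height at most `B`.  In the
library it is known that `rank_x` is near to `1/2` for almost all pairs up to `x = B^(1/10)`.  We prove this for very
sparse sets of pairs:

1. all four integers `u, n, w, v` arise from ARBITRARY integers by changing a few digits (and possibly the signs of the
  numerators);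
2. `a = u/n` is ANY rational number, the denominator `v` of `b` is ANY natural number, and only the numerator `w` arises
  from an arbitrary integer by changing a few digits; then the error contains the additional term
  `(∑_{p ∣ u} 1/p + ∑_{p ∣ n} 1/p + ∑_{p ∣ v} 1/p) / log log x` (over `p ≤ x`), uniformly in `u`, `n` and `v`.

This holds for almost all choices of the positions, for all `x` with `X₀ ≤ x ≤ exp (c √r)`, `r` the (smallest) number of
changed digits; `X₀` depends only on the base and the proportion `η` of the exceptions.  See `Pool.Agent.Q235.FE`.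
-/

set_option autoImplicit false

namespace Pool.Agent.Results.MP_81dc49_nt.FewDigitTruncatedRanks

open scoped Classical
open Finset
open Pool.Agent.Q235.FD (Setting exceptions digit)
open Pool.Agent.Q235.FE (bad bad_mono exceptions_mono)

/-- The residue class of the fraction `u / n` modulo `p` (for `p ∤ n`). -/
def frac (u : ℤ) (n p : ℕ) : ZMod p := (u : ZMod p) * (n : ZMod p)⁻¹

/-- The number of points, with the point at infinity, of `y² = x³ + (u/n) x + w/v` modulo `p`. -/
noncomputable def points (u : ℤ) (n : ℕ) (w : ℤ) (v p : ℕ) : ℕ :=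
  Nat.card {q : ZMod p × ZMod p // q.2 ^ 2 = q.1 ^ 3 + frac u n p * q.1 + frac w v p} + 1

/-- `p` is an odd prime which does not divide the denominators, and the reduction is nonsingular. -/
def Good (u : ℤ) (n : ℕ) (w : ℤ) (v p : ℕ) : Prop :=
  p.Prime ∧ p ≠ 2 ∧ ¬ p ∣ n ∧ ¬ p ∣ v ∧ 4 * frac u n p ^ 3 + 27 * frac w v p ^ 2 ≠ 0

/-- The product of `#E(𝔽_p) / p` over the good primes `p ≤ x`. -/
noncomputable def product (u : ℤ) (n : ℕ) (w : ℤ) (v x : ℕ) : ℝ :=
  ∏ p ∈ (range (x + 1)).filter (Good u n w v), ((points u n w v p : ℝ) / p)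

/-- The exponent `r` for which the product up to `x` is `(log x) ^ r`. -/
noncomputable def rankAt (u : ℤ) (n : ℕ) (w : ℤ) (v x : ℕ) : ℝ :=
  Real.log (product u n w v x) / Real.log (Real.log x)

/-- The sum of the reciprocals of the prime divisors `p ≤ x` of `A` (of all primes `p ≤ x`, if `A = 0`). -/
noncomputable def divisorSum (A : ℤ) (x : ℕ) : ℝ :=
  ∑ p ∈ (range (x + 1)).filter (fun p : ℕ => p.Prime ∧ (p : ℤ) ∣ A), 1 / (p : ℝ)

open Pool.Agent.W263.BSD (GoodPrime pointCount) in
theorem log_product (u : ℤ) (n : ℕ) (w : ℤ) (v x : ℕ) : Real.log (product u n w v x) =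
    ∑ p ∈ (range (x + 1)).filter Nat.Prime, Pool.Agent.Q28.BP.lr u n w v p := by
  unfold product
  rw [Real.log_prod]
  · rw [sum_filter, sum_filter]
    refine sum_congr rfl fun p _ => ?_
    by_cases hp : p.Prime
    swap
    · rw [if_neg hp, if_neg fun h => hp h.1]
    rw [if_pos hp]
    have : Fact p.Prime := ⟨hp⟩
    unfold Pool.Agent.Q28.BP.lr
    by_cases hd : p ∣ n ∨ p ∣ v
    · rw [if_pos hd, if_neg]
      rintro ⟨_, _, h1, h2, _⟩
      rcases hd with h | h
      · exact h1 h
      · exact h2 h
    rw [if_neg hd]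
    have ha := Pool.Agent.Q28.BP.frc_cast u n hp
    have hb := Pool.Agent.Q28.BP.frc_cast w v hp
    obtain ⟨A, hA⟩ : ∃ A, A = Pool.Agent.Q28.BP.frc u n p := ⟨_, rfl⟩
    obtain ⟨C, hC⟩ : ∃ C, C = Pool.Agent.Q28.BP.frc w v p := ⟨_, rfl⟩
    rw [← hA] at ha ⊢
    rw [← hC] at hb ⊢
    rw [not_or] at hd
    have hgood : Good u n w v p ↔ GoodPrime A C p := by
      by_cases hp2 : p = 2
      · subst hp2
        constructor
        · intro h
          exact absurd rfl h.2.1
        · intro h
          exact absurd h (Pool.Agent.Q28.BP.not_good_two A C)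
      · rw [Pool.Agent.Q28.BP.good_iff hp2, ha, hb]
        unfold Good frac
        constructor
        · intro h
          exact h.2.2.2.2
        · intro h
          exact ⟨hp, hp2, hd.1, hd.2, h⟩
    have hpts : (points u n w v p : ℝ) = (pointCount A C p : ℝ) + 1 := by
      unfold points pointCount frac
      rw [ha, hb]
      push_cast
      rfl
    unfold Pool.Agent.Q28.BP.lg
    by_cases hg : GoodPrime A C p
    · rw [if_pos hg, if_pos (hgood.2 hg), hpts]
    · rw [if_neg hg, if_neg fun h => hg (hgood.1 h)]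
  · intro p hp
    have h1 := (mem_filter.1 hp).2.1
    have hp0 : (0 : ℝ) < p := by exact_mod_cast h1.pos
    have h2 : (0 : ℝ) < points u n w v p := by
      unfold points
      push_cast
      positivity
    positivity

lemma rank_bound {u : ℤ} {n : ℕ} {w : ℤ} {v x : ℕ} (hx : 16 ≤ x) {z : ℝ}
    (h : |∑ p ∈ (range (x + 1)).filter Nat.Prime, Pool.Agent.Q28.BP.lr u n w v p - 1 / 2 * Real.log (Real.log x)| ≤
      4 * Real.log (Real.log x) ^ (5 / 6 : ℝ) + z) :
    |rankAt u n w v x - 1 / 2| ≤ 4 * Real.log (Real.log x) ^ (-(1 / 6) : ℝ) + z / Real.log (Real.log x) := by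
  have hl : 0 < Real.log (Real.log x) := by
    have := Pool.Agent.Q28.BP.loglog_ge_one hx
    linarith
  have hrank : rankAt u n w v x - 1 / 2 = (∑ p ∈ (range (x + 1)).filter Nat.Prime, Pool.Agent.Q28.BP.lr u n w v p -
        1 / 2 * Real.log (Real.log x)) / Real.log (Real.log x) := by
    unfold rankAt
    rw [log_product, sub_div, mul_div_assoc, div_self hl.ne', mul_one]
  rw [hrank, abs_div, abs_of_pos hl, div_le_iff₀ hl]
  refine h.trans (le_of_eq ?_)
  have e : Real.log (Real.log x) ^ (5 / 6 : ℝ) = Real.log (Real.log x) ^ (-(1 / 6) : ℝ) * Real.log (Real.log x) := by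
    nth_rewrite 3 [← Real.rpow_one (Real.log (Real.log x))]
    rw [← Real.rpow_add hl]
    norm_num
  rw [add_mul, div_mul_cancel₀ _ hl.ne', e]
  ring

/-- **The truncated ranks of curves with rational coefficients, few changed digits.**  Let `β ≥ 2` be a base.  There is
`c > 0` such that for every `η > 0` there is `X₀` such that

1. for all integers `N 0, …, N 3` with at most `K l` digits in base `β`, all `r l ≤ K l / 2`, all prescribed new
  digits and all signs `s`, `t` the following holds for all choices of `r l` positions in `N l`, except for a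
  proportion of at most `η`: for the numbers `m 0, …, m 3` obtained and all `x ≥ X₀` with `log x ≤ c √(r l)` for all `l`,
  the truncated rank of `y² = X³ + (s (m 0) / m 1) X + t (m 2) / m 3` satisfies `|rank_x - 1/2| ≤ 4 (log log x)^(-1/6)`;
2. for all integers `u`, all natural numbers `n`, `v`, all integers `N` with at most `K` digits, all `r ≤ K / 2`, all
  prescribed new digits and all signs `t` the following holds for all choices of `r` positions in `N`, except for a
  proportion of at most `η`: for the number `m` obtained and all `x ≥ X₀` with `log x ≤ c √r` the truncated rank of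
  `y² = X³ + (u / n) X + t m / v` satisfies
  `|rank_x - 1/2| ≤ 4 (log log x)^(-1/6) + (∑_{p ∣ u} 1/p + ∑_{p ∣ n} 1/p + ∑_{p ∣ v} 1/p) / log log x` (`p ≤ x`). -/
theorem result (β : ℕ) (hβ : 2 ≤ β) : ∃ c : ℝ, 0 < c ∧ ∀ η : ℝ, 0 < η → ∃ X₀ : ℕ, 16 ≤ X₀ ∧
    (∀ s t : ℤ, (s = 1 ∨ s = -1) → (t = 1 ∨ t = -1) → ∀ (K r N : Fin 4 → ℕ) (f : Fin 4 → ℕ → ℕ), Setting β K r N f →
      (exceptions β K r N f (fun m => ∀ x : ℕ, X₀ ≤ x → (∀ l, Real.log x ≤ c * Real.sqrt (r l)) →
        |rankAt (s * (m 0 : ℤ)) (m 1) (t * (m 2 : ℤ)) (m 3) x - 1 / 2| ≤ 4 * Real.log (Real.log x) ^ (-(1 / 6) : ℝ)) : ℝ) ≤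
          η * ∏ l, ((K l).choose (r l) : ℝ)) ∧
    (∀ (u : ℤ) (n v : ℕ) (t : ℤ), (t = 1 ∨ t = -1) → ∀ (K r N : ℕ) (f : ℕ → ℕ), 2 * r ≤ K → N < β ^ K →
      (∀ j, f j < β ∧ f j ≠ digit β j N) →
      (bad β K r N f (fun m => ∀ x : ℕ, X₀ ≤ x → Real.log x ≤ c * Real.sqrt r →
        |rankAt u n (t * (m : ℤ)) v x - 1 / 2| ≤ 4 * Real.log (Real.log x) ^ (-(1 / 6) : ℝ) +
          (divisorSum u x + divisorSum n x + divisorSum v x) / Real.log (Real.log x)) : ℝ) ≤ η * (K.choose r : ℝ)) := by
  obtain ⟨c₁, hc₁, H1⟩ := Pool.Agent.Q235.FE.rat_four β hβ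
  obtain ⟨c₂, hc₂, H2⟩ := Pool.Agent.Q235.FE.rat_one β hβ
  refine ⟨min c₁ c₂, lt_min hc₁ hc₂, fun η hη => ?_⟩
  obtain ⟨X₁, h1, H1⟩ := H1 η hη
  obtain ⟨X₂, h2, H2⟩ := H2 η hη
  refine ⟨max X₁ X₂, h1.trans (le_max_left _ _), ?_, ?_⟩
  · intro s t hs ht K r N f hset
    refine le_trans (Nat.cast_le.2 (exceptions_mono β K r N f (fun m hm x hx hxr => ?_))) (H1 s t hs ht K r N f hset)
    have h3 := hm x ((le_max_left _ _).trans hx) (fun l => (hxr l).trans
      (mul_le_mul_of_nonneg_right (min_le_left _ _) (Real.sqrt_nonneg _)))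
    have h4 := rank_bound (h1.trans ((le_max_left _ _).trans hx)) (z := 0) (by rw [add_zero]; exact h3)
    rwa [zero_div, add_zero] at h4
  · intro u n v t ht K r N f hrK hN hf
    refine le_trans (Nat.cast_le.2 (bad_mono β K r N f (fun m hm x hx hxr => ?_))) (H2 u n v t ht K r N f hrK hN hf)
    have h3 := hm x ((le_max_right _ _).trans hx) (hxr.trans
      (mul_le_mul_of_nonneg_right (min_le_right _ _) (Real.sqrt_nonneg _)))
    have e : ∀ A : ℤ, Pool.Agent.Q28.BP.wt A x = divisorSum A x := by
      intro A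
      unfold Pool.Agent.Q28.BP.wt divisorSum
      rw [← sum_filter, filter_filter]
    rw [e, e, e] at h3
    exact rank_bound (h1.trans ((le_max_left _ _).trans hx)) h3

end Pool.Agent.Results.MP_81dc49_nt.FewDigitTruncatedRanks
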