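import Pool.Agent.Q28.BP.RatAll

/-!
# The truncated ranks of the curves `y² = x³ + a x + b`, `a`, `b` rational numbers of height at most `B`

The field of the problem is `k = ℚ` here.  For `a, b ∈ ℚ` put

  `rank_x(a, b) = log (∏_{p ≤ x} #E_{a,b}(𝔽_p) / p) / log log x`,

the product over the primes `p ≥ 3` which do not divide the denominators of `a` and `b` and at which
`y² = x³ + a x + b` has good reduction.  (The finitely many other primes do not matter for the limit.)  Birch
and Swinnerton-Dyer conjectured, in their original papers, that `rank_x` tends to the rank of `E_{a,b}(ℚ)`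
for `x → ∞`.  The problem asks whether ranks `0` and `1` have probability `1/2` each, and whether the average
rank is `1/2`, for the pairs `(a, b)` of height at most `B`.  We prove unconditionally that

1. `|rank_x(a, b) - 1/2| ≤ 2 (log log x)^(-1/6)` simultaneously for all `x` between a constant and
   `B^(1/10)`, for `100 %` of the pairs;
2. the average of `|rank_x(a, b) - 1/2|` is `O((log log x)^(-1/2))` for `x ≤ B^(1/10)`.

So the average of the truncated ranks is `1/2`, the average rank in the problem, and the truncated rank does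
not distinguish the two halves of rank `0` and `1` before `x` exceeds `B^(1/10)`.
-/

set_option autoImplicit false

namespace Pool.Agent.Results.MP_81dc49_nt.TruncatedRanks

open scoped Classical
open Finset

/-- The set `S_B` of the problem: `H(a), H(b) ≤ B` and `4 a³ + 27 b² ≠ 0`. -/
noncomputable def curves (B : ℕ) : Finset (ℚ × ℚ) :=
  (((Icc (-(B : ℤ)) B ×ˢ Ioc 0 B).image fun q : ℤ × ℕ => (q.1 : ℚ) / (q.2 : ℚ)) ×ˢ
    ((Icc (-(B : ℤ)) B ×ˢ Ioc 0 B).image fun q : ℤ × ℕ => (q.1 : ℚ) / (q.2 : ℚ))).filter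
      fun q => 4 * q.1 ^ 3 + 27 * q.2 ^ 2 ≠ 0

/-- The members of `curves B` are the pairs `(a, b)` with `max (|numerator|) (denominator) ≤ B` for `a` and
`b`, and `4 a³ + 27 b² ≠ 0`. -/
theorem mem_curves (B : ℕ) (a b : ℚ) : (a, b) ∈ curves B ↔
    (max |a.num| a.den ≤ (B : ℤ) ∧ max |b.num| b.den ≤ (B : ℤ)) ∧ 4 * a ^ 3 + 27 * b ^ 2 ≠ 0 := by
  have h : (a, b) ∈ curves B ↔ (a ∈ Pool.Agent.Q28.BP.rats B ∧ b ∈ Pool.Agent.Q28.BP.rats B) ∧
      4 * a ^ 3 + 27 * b ^ 2 ≠ 0 := by
    unfold curves
    rw [mem_filter, mem_product]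
    rfl
  rw [h, Pool.Agent.Q28.BP.mem_rats, Pool.Agent.Q28.BP.mem_rats, max_le_iff, max_le_iff]
  constructor
  · rintro ⟨⟨⟨h1, h2⟩, h3, h4⟩, h5⟩
    exact ⟨⟨⟨h1, by exact_mod_cast h2⟩, h3, by exact_mod_cast h4⟩, h5⟩
  · rintro ⟨⟨⟨h1, h2⟩, h3, h4⟩, h5⟩
    exact ⟨⟨⟨h1, by exact_mod_cast h2⟩, h3, by exact_mod_cast h4⟩, h5⟩

/-- The residue class of a rational number (whose denominator is prime to `p`). -/
def red (a : ℚ) (p : ℕ) : ZMod p := (a.num : ZMod p) * (a.den : ZMod p)⁻¹

/-- The number of points, with the point at infinity, of `y² = x³ + a x + b` modulo `p`. -/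
noncomputable def points (a b : ℚ) (p : ℕ) : ℕ :=
  Nat.card {q : ZMod p × ZMod p // q.2 ^ 2 = q.1 ^ 3 + red a p * q.1 + red b p} + 1

/-- `p` is an odd prime which does not divide the denominators, and the reduction is nonsingular. -/
def Good (a b : ℚ) (p : ℕ) : Prop :=
  p.Prime ∧ p ≠ 2 ∧ ¬ p ∣ a.den ∧ ¬ p ∣ b.den ∧ 4 * red a p ^ 3 + 27 * red b p ^ 2 ≠ 0

/-- The product of `#E(𝔽_p) / p` over the good primes `p ≤ x`. -/
noncomputable def product (a b : ℚ) (x : ℕ) : ℝ :=
  ∏ p ∈ (range (x + 1)).filter (Good a b), ((points a b p : ℝ) / p)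

/-- The exponent `r` for which the product up to `x` is `(log x) ^ r`. -/
noncomputable def rankAt (a b : ℚ) (x : ℕ) : ℝ :=
  Real.log (product a b x) / Real.log (Real.log x)

open Pool.Agent.W263.BSD (GoodPrime pointCount) in
theorem log_product (a b : ℚ) (x : ℕ) : Real.log (product a b x) =
    ∑ p ∈ (range (x + 1)).filter Nat.Prime, Pool.Agent.Q28.BP.lr a.num a.den b.num b.den p := by
  unfold product
  rw [Real.log_prod]
  · rw [sum_filter, sum_filter]
    refine sum_congr rfl fun p _ => ?_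
    by_cases hp : p.Prime
    swap
    · rw [if_neg hp, if_neg fun h => hp h.1]
    rw [if_pos hp]
    have : Fact p.Prime := ⟨hp⟩
    unfold Pool.Agent.Q28.BP.lr
    by_cases hd : p ∣ a.den ∨ p ∣ b.den
    · rw [if_pos hd, if_neg]
      rintro ⟨_, _, h1, h2, _⟩
      rcases hd with h | h
      · exact h1 h
      · exact h2 h
    rw [if_neg hd]
    have ha := Pool.Agent.Q28.BP.frc_cast a.num a.den hp
    have hb := Pool.Agent.Q28.BP.frc_cast b.num b.den hp
    set A := Pool.Agent.Q28.BP.frc a.num a.den p with hA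
    set C := Pool.Agent.Q28.BP.frc b.num b.den p with hC
    rw [not_or] at hd
    have hgood : Good a b p ↔ GoodPrime A C p := by
      by_cases hp2 : p = 2
      · subst hp2
        constructor
        · intro h
          exact absurd rfl h.2.1
        · intro h
          exact absurd h (Pool.Agent.Q28.BP.not_good_two A C)
      · rw [Pool.Agent.Q28.BP.good_iff hp2, ha, hb]
        unfold Good red
        constructor
        · intro h
          exact h.2.2.2.2
        · intro h
          exact ⟨hp, hp2, hd.1, hd.2, h⟩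
    have hpts : (points a b p : ℝ) = (pointCount A C p : ℝ) + 1 := by
      unfold points pointCount red
      rw [ha, hb]
      push_cast
      rfl
    unfold Pool.Agent.Q28.BP.lg
    by_cases hg : GoodPrime A C p
    · rw [if_pos hg, if_pos (hgood.2 hg), hpts]
    · rw [if_neg hg, if_neg fun h => hg (hgood.1 h)]
  · intro p hp
    have h1 := (mem_filter.1 hp).2.1
    have hp0 : (0 : ℝ) < p := by exact_mod_cast h1.pos
    have h2 : (0 : ℝ) < points a b p := by
      unfold points
      push_cast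
      positivity
    positivity

/-- **The truncated ranks.**  (1) For every `η > 0` there is `X₀` such that for all `B`, with at most
`η #S_B` exceptions all `(a, b) ∈ S_B` satisfy `|rank_x(a, b) - 1/2| ≤ 2 (log log x)^(-1/6)` for all
`x ≥ X₀` with `x^10 ≤ B`.  (2) There is `C` such that for all `x ≥ 16` and all `B ≥ x^10` the mean of
`|rank_x(a, b) - 1/2|` over `S_B` is at most `C (log log x)^(-1/2)`. -/
theorem result :
    (∀ η : ℝ, 0 < η → ∃ X₀ : ℕ, 16 ≤ X₀ ∧ ∀ B : ℕ, ∃ 𝓔 ⊆ curves B, (𝓔.card : ℝ) ≤ η * (curves B).card ∧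
      ∀ q ∈ curves B, q ∉ 𝓔 → ∀ x : ℕ, X₀ ≤ x → x ^ 10 ≤ B →
        |rankAt q.1 q.2 x - 1 / 2| ≤ 2 * Real.log (Real.log x) ^ (-(1 / 6) : ℝ)) ∧
    ∃ C : ℝ, ∀ B x : ℕ, 16 ≤ x → x ^ 10 ≤ B →
      (∑ q ∈ curves B, |rankAt q.1 q.2 x - 1 / 2|) / (curves B).card ≤
        C * Real.log (Real.log x) ^ (-(1 / 2) : ℝ) := by
  have hFF : ∀ B, curves B = Pool.Agent.Q28.BP.RF B := fun B => rfl
  have hL : ∀ x : ℕ, 16 ≤ x → 0 < Real.log (Real.log x) := by
    intro x hx
    have := Pool.Agent.Q28.BP.loglog_ge_one hx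
    linarith
  have hrank : ∀ (a b : ℚ) (x : ℕ), 16 ≤ x → rankAt a b x - 1 / 2 =
      (∑ p ∈ (range (x + 1)).filter Nat.Prime, Pool.Agent.Q28.BP.lr a.num a.den b.num b.den p -
        1 / 2 * Real.log (Real.log x)) / Real.log (Real.log x) := by
    intro a b x hx
    unfold rankAt
    rw [log_product, sub_div, mul_div_assoc, div_self (hL x hx).ne', mul_one]
  constructor
  · intro η hη
    obtain ⟨X₀, hX₀, H⟩ := Pool.Agent.Q28.BP.rat_all hη
    refine ⟨X₀, hX₀, fun B => ?_⟩
    obtain ⟨E, hE, hEc, HE⟩ := H B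
    rw [← hFF] at hE hEc HE
    refine ⟨E, hE, hEc, fun q hq hne x hx hxX => ?_⟩
    have hl := hL x (hX₀.trans hx)
    have h1 := HE q hq hne x hx hxX
    rw [hrank _ _ _ (hX₀.trans hx), abs_div, abs_of_pos hl, div_le_iff₀ hl, mul_assoc]
    refine h1.trans (le_of_eq ?_)
    congr 1
    nth_rewrite 3 [← Real.rpow_one (Real.log (Real.log x))]
    rw [← Real.rpow_add hl]
    norm_num
  · obtain ⟨C, hC, H⟩ := Pool.Agent.Q28.BP.rat_mean
    refine ⟨C, fun B x hx hxB => ?_⟩
    have hl := hL x hx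
    have h1 := H B x hx hxB
    rw [← hFF] at h1
    have h2 : ∑ q ∈ curves B, |rankAt q.1 q.2 x - 1 / 2| = (∑ q ∈ curves B,
        |∑ p ∈ (range (x + 1)).filter Nat.Prime, Pool.Agent.Q28.BP.lr q.1.num q.1.den q.2.num q.2.den p -
          1 / 2 * Real.log (Real.log x)|) / Real.log (Real.log x) := by
      rw [sum_div]
      refine sum_congr rfl fun q _ => ?_
      rw [hrank _ _ _ hx, abs_div, abs_of_pos hl]
    rw [h2]
    rcases Nat.eq_zero_or_pos (curves B).card with h0 | h0
    · rw [h0]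
      simp only [Nat.cast_zero, div_zero]
      positivity
    · have h3 : (0 : ℝ) < (curves B).card := by exact_mod_cast h0
      rw [div_le_iff₀ h3, div_le_iff₀ hl]
      refine h1.trans (le_of_eq ?_)
      have e : Real.log (Real.log x) ^ (1 / 2 : ℝ) =
          Real.log (Real.log x) ^ (-(1 / 2) : ℝ) * Real.log (Real.log x) := by
        nth_rewrite 3 [← Real.rpow_one (Real.log (Real.log x))]
        rw [← Real.rpow_add hl]
        norm_num
      rw [e]
      ring

end Pool.Agent.Results.MP_81dc49_nt.TruncatedRanks
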